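import Mathlib
import Pool.Agent.L0h53.SC.L

/-!
# The logarithm of `1 - r e(t)`
-/

set_option autoImplicit false
set_option linter.unusedSectionVars false

namespace Pool.Agent.L0h53.DZ

open MeasureTheory Filter Topology
open Pool.Agent.H261R2.CM
open Pool.Agent.L0h53.SC (ez_add ez_zero ez_one)

noncomputable section

/-- mean values -/
theorem mean_value (F : ℂ → ℂ) (hF : DifferentiableOn ℂ F (Metric.ball 0 1)) {r : ℝ} (hr0 : 0 ≤ r)
    (hr1 : r < 1) : ∫ t in (0:ℝ)..1, F (r * ez t) = F 0 := by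
  have h1 : DiffContOnCl ℂ (fun z : ℂ => F (r * z)) (Metric.ball 0 |(1:ℝ)|) := by
    refine DifferentiableOn.diffContOnCl ?_
    rw [abs_one, closure_ball (0 : ℂ) one_ne_zero]
    refine hF.comp (by fun_prop) ?_
    intro z hz
    rw [mem_closedBall_zero_iff] at hz
    rw [mem_ball_zero_iff, norm_mul, Complex.norm_real, Real.norm_of_nonneg hr0]
    nlinarith [norm_nonneg z]
  have h2 := h1.circleAverage
  rw [D_circleAverage] at h2
  simpa using h2

theorem hasDerivAt_ez (t : ℝ) : HasDerivAt ez (2 * (Real.pi : ℂ) * Complex.I * ez t) t := by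
  have h1 : HasDerivAt (fun t : ℝ => 2 * (Real.pi : ℂ) * Complex.I * (t : ℂ))
      (2 * (Real.pi : ℂ) * Complex.I) t := by
    simpa using (Complex.ofRealCLM.hasDerivAt (x := t)).const_mul (2 * (Real.pi : ℂ) * Complex.I)
  refine h1.cexp.congr_deriv ?_
  rw [mul_comm]
  rfl

variable {r : ℝ}

/-- the logarithm -/
def gk (r : ℝ) (t : ℝ) : ℂ := Complex.log (1 - r * ez t)

/-- the argument -/
def hk (r : ℝ) (t : ℝ) : ℝ := (gk r t).im

/-- its derivative -/
def kk (r : ℝ) (t : ℝ) : ℝ := -(2 * Real.pi * ((r * ez t) / (1 - r * ez t)).re)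

theorem norm_rez (hr0 : 0 ≤ r) (t : ℝ) : ‖(r : ℂ) * ez t‖ = r := by
  rw [norm_mul, D_norm_ez, mul_one, Complex.norm_real, Real.norm_of_nonneg hr0]

theorem slit (hr0 : 0 ≤ r) (hr1 : r < 1) (t : ℝ) : 1 - (r : ℂ) * ez t ∈ Complex.slitPlane := by
  rw [sub_eq_add_neg]
  refine Complex.mem_slitPlane_of_norm_lt_one ?_
  rw [norm_neg, norm_rez hr0]
  exact hr1

theorem one_sub_ne (hr0 : 0 ≤ r) (hr1 : r < 1) (t : ℝ) : 1 - (r : ℂ) * ez t ≠ 0 :=
  Complex.slitPlane_ne_zero (slit hr0 hr1 t)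

theorem hasDerivAt_gk (hr0 : 0 ≤ r) (hr1 : r < 1) (t : ℝ) :
    HasDerivAt (gk r) (-(2 * (Real.pi : ℂ) * Complex.I) * ((r * ez t) / (1 - r * ez t))) t := by
  have h1 : HasDerivAt (fun t : ℝ => 1 - (r : ℂ) * ez t)
      (-((r : ℂ) * (2 * (Real.pi : ℂ) * Complex.I * ez t))) t := by
    simpa using ((hasDerivAt_ez t).const_mul (r : ℂ)).const_sub 1
  have h2 := h1.clog_real (slit hr0 hr1 t)
  refine h2.congr_deriv ?_
  ring

theorem hasDerivAt_hk (hr0 : 0 ≤ r) (hr1 : r < 1) (t : ℝ) : HasDerivAt (hk r) (kk r t) t := by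
  have h1 := Complex.imCLM.hasFDerivAt.comp_hasDerivAt t (hasDerivAt_gk hr0 hr1 t)
  refine h1.congr_deriv ?_
  unfold kk
  simp only [Complex.imCLM_apply]
  set w := (r * ez t) / (1 - r * ez t)
  have : (-(2 * (Real.pi : ℂ) * Complex.I) * w) = ((-(2 * Real.pi) : ℝ) : ℂ) * (Complex.I * w) := by
    push_cast; ring
  rw [this, Complex.im_ofReal_mul, Complex.I_mul_im]
  ring

theorem continuous_kk (hr0 : 0 ≤ r) (hr1 : r < 1) : Continuous (kk r) := by
  unfold kk
  have h1 : Continuous fun t : ℝ => (r : ℂ) * ez t := continuous_const.mul D_continuous_ez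
  have h2 : Continuous fun t : ℝ => ((r : ℂ) * ez t) / (1 - r * ez t) :=
    h1.div (continuous_const.sub h1) (one_sub_ne hr0 hr1)
  exact (continuous_const.mul (Complex.continuous_re.comp h2)).neg

theorem continuous_gk (hr0 : 0 ≤ r) (hr1 : r < 1) : Continuous (gk r) :=
  continuous_iff_continuousAt.mpr fun t => (hasDerivAt_gk hr0 hr1 t).continuousAt

theorem continuous_hk (hr0 : 0 ≤ r) (hr1 : r < 1) : Continuous (hk r) :=
  Complex.continuous_im.comp (continuous_gk hr0 hr1)

theorem gk_periodic : Function.Periodic (gk r) 1 := by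
  intro t
  unfold gk
  rw [ez_add, ez_one, mul_one]

theorem hk_periodic : Function.Periodic (hk r) 1 := by
  intro t
  unfold hk
  rw [gk_periodic t]

theorem kk_periodic : Function.Periodic (kk r) 1 := by
  intro t
  unfold kk
  rw [ez_add, ez_one, mul_one]

theorem kk_le (hr0 : 0 ≤ r) (hr1 : r < 1) (t : ℝ) : kk r t ≤ Real.pi := by
  have h1 : -(1 / 2 : ℝ) ≤ (((r : ℂ) * ez t) / (1 - r * ez t)).re := by
    set w := (r : ℂ) * ez t with hw
    have hn : Complex.normSq w ≤ 1 := by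
      rw [Complex.normSq_eq_norm_sq, hw, norm_rez hr0]
      nlinarith
    have hne : 1 - w ≠ 0 := one_sub_ne hr0 hr1 t
    have hp : 0 < Complex.normSq (1 - w) := Complex.normSq_pos.mpr hne
    rw [Complex.div_re, ← add_div, le_div_iff₀ hp]
    simp only [Complex.normSq_apply, Complex.sub_re, Complex.one_re, Complex.sub_im,
      Complex.one_im] at hn ⊢
    nlinarith
  unfold kk
  nlinarith [Real.pi_pos]

theorem integral_kk (hr0 : 0 ≤ r) (hr1 : r < 1) (a : ℝ) : ∫ s in a..a + 1, kk r s = 0 := by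
  rw [intervalIntegral.integral_eq_sub_of_hasDerivAt (f := hk r)
    (fun s _ => hasDerivAt_hk hr0 hr1 s) ((continuous_kk hr0 hr1).intervalIntegrable _ _),
    hk_periodic a, sub_self]

theorem integral_abs_kk (hr0 : 0 ≤ r) (hr1 : r < 1) (a : ℝ) :
    ∫ s in a..a + 1, |kk r s| ≤ 2 * Real.pi := by
  have h1 : ∀ s, |kk r s| ≤ 2 * Real.pi - kk r s := by
    intro s
    have h2 := kk_le hr0 hr1 s
    have := Real.pi_pos
    rw [abs_le]
    constructor <;> linarith
  have h2 : ∫ s in a..a + 1, |kk r s| ≤ ∫ s in a..a + 1, (2 * Real.pi - kk r s) := by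
    refine intervalIntegral.integral_mono_on (by linarith) ?_ ?_ fun s _ => h1 s
    · exact (continuous_kk hr0 hr1).abs.intervalIntegrable _ _
    · exact (continuous_const.sub (continuous_kk hr0 hr1)).intervalIntegrable _ _
  refine h2.trans ?_
  rw [intervalIntegral.integral_sub intervalIntegrable_const
    ((continuous_kk hr0 hr1).intervalIntegrable _ _), integral_kk hr0 hr1]
  simp

theorem integral_hk (hr0 : 0 ≤ r) (hr1 : r < 1) : ∫ s in (0:ℝ)..1, hk r s = 0 := by
  have h1 := mean_value (fun z => Complex.log (1 - z)) (by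
    intro z hz
    rw [mem_ball_zero_iff] at hz
    refine DifferentiableAt.differentiableWithinAt ?_
    refine DifferentiableAt.clog (by fun_prop) ?_
    rw [sub_eq_add_neg]
    exact Complex.mem_slitPlane_of_norm_lt_one (by rwa [norm_neg])) hr0 hr1
  rw [sub_zero, Complex.log_one] at h1
  have h2 := congrArg Complex.im h1
  rw [Complex.zero_im] at h2
  have h3 : (∫ t in (0:ℝ)..1, Complex.log (1 - r * ez t)).im = ∫ s in (0:ℝ)..1, hk r s := by
    have h4 := ContinuousLinearMap.intervalIntegral_comp_comm Complex.imCLM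
      ((continuous_gk hr0 hr1).intervalIntegrable 0 1 (μ := volume))
    exact h4.symm
  rw [← h3, h2]

end

end Pool.Agent.L0h53.DZ
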