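import Mathlib
import Pool.Agent.L0h53.DZ.A

/-!
# The mean square of the conjugate function
-/

set_option autoImplicit false
set_option linter.unusedSectionVars false

namespace Pool.Agent.L0h53.DZ

open MeasureTheory Filter Topology
open Pool.Agent.H261R2.CM
open Pool.Agent.L0h53.SC (ez_add ez_zero ez_one)

noncomputable section

/-- a step minus the mean -/
def saw (φ s : ℝ) : ℝ := (if φ < s then 1 else 0) - s

theorem measurable_saw (φ : ℝ) : Measurable (saw φ) := by
  unfold saw
  exact (Measurable.ite measurableSet_Ioi measurable_const measurable_const).sub measurable_id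

theorem saw_bound (φ s : ℝ) : |saw φ s| ≤ 1 + |s| := by
  unfold saw
  refine (abs_sub _ _).trans ?_
  gcongr
  split_ifs <;> simp

variable {r : ℝ}

theorem integral_step (hr0 : 0 ≤ r) (hr1 : r < 1) {φ : ℝ} (h0 : -(1 / 2) ≤ φ) (h1 : φ ≤ 1 / 2) (t : ℝ) :
    ∫ s in (-(1/2) : ℝ)..(1/2), (if φ < s then 1 else 0) * kk r (t - s) =
      hk r (t - φ) - hk r (t - 1 / 2) := by
  have hc : Continuous fun s => kk r (t - s) := (continuous_kk hr0 hr1).comp (by fun_prop)
  have i1 : IntervalIntegrable (fun s => (if φ < s then 1 else 0) * kk r (t - s)) volume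
      (-(1/2)) φ := by
    refine (intervalIntegrable_const (c := (0:ℝ))).congr ?_
    intro s hs
    rw [Set.uIoc_of_le h0] at hs
    simp [not_lt.mpr hs.2]
  have i2 : IntervalIntegrable (fun s => (if φ < s then 1 else 0) * kk r (t - s)) volume
      φ (1/2) := by
    refine (hc.intervalIntegrable φ (1/2)).congr ?_
    intro s hs
    rw [Set.uIoc_of_le h1] at hs
    simp [hs.1]
  rw [← intervalIntegral.integral_add_adjacent_intervals i1 i2]
  have e1 : ∫ s in (-(1/2) : ℝ)..φ, (if φ < s then 1 else 0) * kk r (t - s) = 0 := by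
    have : ∫ s in (-(1/2) : ℝ)..φ, (if φ < s then 1 else 0) * kk r (t - s) =
        ∫ s in (-(1/2) : ℝ)..φ, (0:ℝ) := by
      refine intervalIntegral.integral_congr_ae (Eventually.of_forall fun s hs => ?_)
      rw [Set.uIoc_of_le h0] at hs
      simp [not_lt.mpr hs.2]
    rw [this]
    simp
  have e2 : ∫ s in φ..(1/2), (if φ < s then 1 else 0) * kk r (t - s) =
      ∫ s in φ..(1/2), kk r (t - s) := by
    refine intervalIntegral.integral_congr_ae (Eventually.of_forall fun s hs => ?_)
    rw [Set.uIoc_of_le h1] at hs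
    simp [hs.1]
  have e3 : ∫ s in φ..(1/2), kk r (t - s) = hk r (t - φ) - hk r (t - 1/2) := by
    rw [intervalIntegral.integral_comp_sub_left (fun s => kk r s) t]
    rw [intervalIntegral.integral_eq_sub_of_hasDerivAt (f := hk r)
      (fun s _ => hasDerivAt_hk hr0 hr1 s) ((continuous_kk hr0 hr1).intervalIntegrable _ _)]
  rw [e1, e2, e3, zero_add]

theorem integral_id (hr0 : 0 ≤ r) (hr1 : r < 1) (t : ℝ) :
    ∫ s in (-(1/2) : ℝ)..(1/2), s * kk r (t - s) = - hk r (t - 1 / 2) := by
  have hd : ∀ s, HasDerivAt (fun s => - hk r (t - s)) (kk r (t - s)) s := by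
    intro s
    have h1 := (hasDerivAt_hk hr0 hr1 (t - s)).scomp s ((hasDerivAt_id s).const_sub t)
    refine h1.neg.congr_deriv ?_
    simp
  have hc : Continuous fun s => kk r (t - s) := (continuous_kk hr0 hr1).comp (by fun_prop)
  have h2 := intervalIntegral.integral_mul_deriv_eq_deriv_mul (a := -(1/2)) (b := 1/2)
    (u := fun s => s) (v := fun s => - hk r (t - s)) (u' := fun _ => 1)
    (v' := fun s => kk r (t - s)) (fun s _ => hasDerivAt_id s) (fun s _ => hd s)
    intervalIntegrable_const (hc.intervalIntegrable _ _)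
  rw [h2]
  have h3 : ∫ s in (-(1/2) : ℝ)..(1/2), (1:ℝ) * - hk r (t - s) = 0 := by
    simp only [one_mul]
    rw [intervalIntegral.integral_neg, intervalIntegral.integral_comp_sub_left (fun s => hk r s) t]
    have h4 := (hk_periodic (r := r)).intervalIntegral_add_eq (t - 1/2) 0
    rw [zero_add, integral_hk hr0 hr1] at h4
    rw [show t - -(1/2) = t - 1/2 + 1 by ring, h4, neg_zero]
  rw [h3]
  have h5 : hk r (t - -(1/2)) = hk r (t - 1/2) := by
    rw [show t - -(1/2) = t - 1/2 + 1 by ring, hk_periodic]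
  rw [h5]
  ring

theorem integral_const_kk (hr0 : 0 ≤ r) (hr1 : r < 1) (t b : ℝ) :
    ∫ s in (-(1/2) : ℝ)..(1/2), b * kk r (t - s) = 0 := by
  rw [intervalIntegral.integral_const_mul, intervalIntegral.integral_comp_sub_left (fun s => kk r s) t,
    show t - -(1/2) = t - 1/2 + 1 by ring, integral_kk hr0 hr1, mul_zero]

theorem integral_saw (hr0 : 0 ≤ r) (hr1 : r < 1) {φ : ℝ} (h0 : -(1 / 2) ≤ φ) (h1 : φ ≤ 1 / 2) (t : ℝ) :
    ∫ s in (-(1/2) : ℝ)..(1/2), saw φ s * kk r (t - s) = hk r (t - φ) := by
  have hc : Continuous fun s => kk r (t - s) := (continuous_kk hr0 hr1).comp (by fun_prop)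
  have i1 : IntervalIntegrable (fun s => (if φ < s then 1 else 0) * kk r (t - s)) volume
      (-(1/2)) (1/2) := by
    refine IntervalIntegrable.mono_fun (hc.intervalIntegrable _ _) ?_ ?_
    · exact ((Measurable.ite measurableSet_Ioi measurable_const measurable_const).mul
        hc.measurable).aestronglyMeasurable
    · refine Eventually.of_forall fun s => ?_
      dsimp only
      rw [norm_mul]
      refine mul_le_of_le_one_left (norm_nonneg _) ?_
      split_ifs <;> simp
  have h2 : ∀ s, saw φ s * kk r (t - s) = (if φ < s then 1 else 0) * kk r (t - s) -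
      s * kk r (t - s) := by
    intro s
    unfold saw
    ring
  simp only [h2]
  have i2 : IntervalIntegrable (fun s => s * kk r (t - s)) volume (-(1/2)) (1/2) :=
    (continuous_id.mul hc).intervalIntegrable _ _
  rw [intervalIntegral.integral_sub i1 i2, integral_step hr0 hr1 h0 h1, integral_id hr0 hr1]
  ring

variable {ι : Type*} [Fintype ι]

/-- the discrepancy -/
def disc (w φ : ι → ℝ) (b s : ℝ) : ℝ := ∑ j, w j * saw (φ j) s - b

theorem measurable_disc (w φ : ι → ℝ) (b : ℝ) : Measurable (disc w φ b) := by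
  unfold disc
  exact (Finset.measurable_sum _ fun j _ => (measurable_saw (φ j)).const_mul (w j)).sub_const b

theorem disc_bound (w φ : ι → ℝ) (b : ℝ) : ∃ B : ℝ, 0 ≤ B ∧ ∀ s ∈ Set.Icc (-(1/2) : ℝ) (1/2),
    |disc w φ b s| ≤ B := by
  refine ⟨∑ j, |w j| * 2 + |b|, by positivity, fun s hs => ?_⟩
  unfold disc
  refine (abs_sub _ _).trans ?_
  gcongr
  refine (Finset.abs_sum_le_sum_abs _ _).trans (Finset.sum_le_sum fun j _ => ?_)
  rw [abs_mul]
  gcongr
  refine (saw_bound _ _).trans ?_
  have : |s| ≤ 1 / 2 := abs_le.mpr ⟨by linarith [hs.1], hs.2⟩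
  linarith

/-- the conjugate function -/
def vv (r : ℝ) (w φ : ι → ℝ) (t : ℝ) : ℝ := ∑ j, w j * hk r (t - φ j)

theorem disc_sq_integrable (w φ : ι → ℝ) (b : ℝ) :
    IntervalIntegrable (fun s => disc w φ b s ^ 2) volume (-(1/2)) (1/2) := by
  obtain ⟨B, hB0, hB⟩ := disc_bound w φ b
  rw [intervalIntegrable_iff_integrableOn_Ioc_of_le (by norm_num)]
  refine Integrable.mono' (g := fun _ => B ^ 2) (integrable_const _)
    ((measurable_disc w φ b).pow_const 2).aestronglyMeasurable ?_
  refine (ae_restrict_iff' measurableSet_Ioc).mpr (Eventually.of_forall fun s hs => ?_)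
  rw [norm_pow]
  exact pow_le_pow_left₀ (norm_nonneg _) (hB s ⟨hs.1.le, hs.2⟩) 2

theorem disc_mul_integrable (w φ : ι → ℝ) (b : ℝ) (k : ℝ → ℝ) (hk : Continuous k) :
    IntervalIntegrable (fun s => disc w φ b s * k s) volume (-(1/2)) (1/2) := by
  obtain ⟨B, hB0, hB⟩ := disc_bound w φ b
  have h1 : IntervalIntegrable (fun s => B * |k s|) volume (-(1/2)) (1/2) :=
    (continuous_const.mul hk.abs).intervalIntegrable _ _
  rw [intervalIntegrable_iff_integrableOn_Ioc_of_le (by norm_num)] at h1 ⊢
  refine Integrable.mono' h1 ((measurable_disc w φ b).mul hk.measurable).aestronglyMeasurable ?_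
  refine (ae_restrict_iff' measurableSet_Ioc).mpr (Eventually.of_forall fun s hs => ?_)
  rw [norm_mul]
  exact mul_le_mul_of_nonneg_right (hB s ⟨hs.1.le, hs.2⟩) (norm_nonneg _)

theorem vv_eq (hr0 : 0 ≤ r) (hr1 : r < 1) (w φ : ι → ℝ) (h0 : ∀ j, -(1/2) ≤ φ j)
    (h1 : ∀ j, φ j ≤ 1/2) (b t : ℝ) :
    vv r w φ t = ∫ s in (-(1/2) : ℝ)..(1/2), disc w φ b s * kk r (t - s) := by
  have hc : Continuous fun s => kk r (t - s) := (continuous_kk hr0 hr1).comp (by fun_prop)
  have hi : ∀ j, IntervalIntegrable (fun s => saw (φ j) s * kk r (t - s)) volume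
      (-(1/2)) (1/2) := by
    intro j
    have := disc_mul_integrable (fun _ : Unit => 1) (fun _ => φ j) 0 _ hc
    simpa [disc] using this
  have e1 : ∀ s, disc w φ b s * kk r (t - s) =
      ∑ j, w j * (saw (φ j) s * kk r (t - s)) - b * kk r (t - s) := by
    intro s
    unfold disc
    rw [sub_mul, Finset.sum_mul]
    simp only [mul_assoc]
  simp only [e1]
  rw [intervalIntegral.integral_sub, integral_const_kk hr0 hr1, sub_zero,
    intervalIntegral.integral_finsetSum]
  · unfold vv
    refine Finset.sum_congr rfl fun j _ => ?_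
    rw [intervalIntegral.integral_const_mul, integral_saw hr0 hr1 (h0 j) (h1 j)]
  · intro j _
    exact (hi j).const_mul _
  · have := IntervalIntegrable.sum Finset.univ (f := fun j s => w j * (saw (φ j) s * kk r (t - s)))
      fun j _ => (hi j).const_mul (w j)
    refine this.congr ?_
    intro s _
    simp
  · exact (continuous_const.mul hc).intervalIntegrable _ _

end

end Pool.Agent.L0h53.DZ
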