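import Mathlib
import Pool.Agent.L0h53.DZ.B

/-!
# The mean square of the logarithm
-/

set_option autoImplicit false
set_option linter.unusedSectionVars false

namespace Pool.Agent.L0h53.DZ

open MeasureTheory Filter Topology
open Pool.Agent.H261R2.CM
open Pool.Agent.W242.IM (ae_eval_ne)
open Pool.Agent.Y820.LB
open Pool.Agent.L0h53.SC (ez_add ez_zero ez_one dom_lim ez_neg_mul)

noncomputable section

variable {r : ℝ} {ι : Type*} [Fintype ι]

theorem vv_sq (hr0 : 0 ≤ r) (hr1 : r < 1) (w φ : ι → ℝ) (h0 : ∀ j, -(1/2) ≤ φ j)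
    (h1 : ∀ j, φ j ≤ 1/2) (b t : ℝ) :
    vv r w φ t ^ 2 ≤ 2 * Real.pi *
      ∫ s in (-(1/2) : ℝ)..(1/2), |kk r (t - s)| * disc w φ b s ^ 2 := by
  have hc : Continuous fun s => kk r (t - s) := (continuous_kk hr0 hr1).comp (by fun_prop)
  have hi1 : IntervalIntegrable (fun s => disc w φ b s * kk r (t - s)) volume (-(1/2)) (1/2) :=
    disc_mul_integrable w φ b _ hc
  have hi2 : IntervalIntegrable (fun s => |kk r (t - s)| * disc w φ b s ^ 2) volume
      (-(1/2)) (1/2) := by
    obtain ⟨B, hB0, hB⟩ := disc_bound w φ b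
    have h1 : IntervalIntegrable (fun s => |kk r (t - s)| * B ^ 2) volume (-(1/2)) (1/2) :=
      (hc.abs.mul continuous_const).intervalIntegrable _ _
    rw [intervalIntegrable_iff_integrableOn_Ioc_of_le (by norm_num)] at h1 ⊢
    refine Integrable.mono' h1
      (hc.abs.measurable.mul ((measurable_disc w φ b).pow_const 2)).aestronglyMeasurable ?_
    refine (ae_restrict_iff' measurableSet_Ioc).mpr (Eventually.of_forall fun s hs => ?_)
    rw [norm_mul, norm_pow, Real.norm_eq_abs, abs_abs]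
    exact mul_le_mul_of_nonneg_left (pow_le_pow_left₀ (norm_nonneg _) (hB s ⟨hs.1.le, hs.2⟩) 2)
      (abs_nonneg _)
  set I := ∫ s in (-(1/2) : ℝ)..(1/2), |kk r (t - s)| * disc w φ b s ^ 2 with hI
  set v := vv r w φ t with hv
  have hve : v = ∫ s in (-(1/2) : ℝ)..(1/2), disc w φ b s * kk r (t - s) :=
    vv_eq hr0 hr1 w φ h0 h1 b t
  have habs : ∫ s in (-(1/2) : ℝ)..(1/2), |kk r (t - s)| ≤ 2 * Real.pi := by
    rw [intervalIntegral.integral_comp_sub_left (fun s => |kk r s|) t,
      show t - -(1/2) = t - 1/2 + 1 by ring]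
    exact integral_abs_kk hr0 hr1 _
  have hkey : ∀ y : ℝ, 2 * y * v ≤ I + y ^ 2 * (2 * Real.pi) := by
    intro y
    have e1 : 2 * y * v ≤ I + y ^ 2 * ∫ s in (-(1/2) : ℝ)..(1/2), |kk r (t - s)| := by
      have hi3 : IntervalIntegrable (fun s => y ^ 2 * |kk r (t - s)|) volume (-(1/2)) (1/2) :=
        (continuous_const.mul hc.abs).intervalIntegrable _ _
      rw [hve, hI, ← intervalIntegral.integral_const_mul, ← intervalIntegral.integral_const_mul,
        ← intervalIntegral.integral_add hi2 hi3]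
      refine intervalIntegral.integral_mono_on (by norm_num) (hi1.const_mul _)
        (hi2.add hi3) fun s _ => ?_
      have e2 : 2 * y * (disc w φ b s * kk r (t - s)) ≤
          |kk r (t - s)| * (2 * |y * disc w φ b s|) := by
        refine (le_abs_self _).trans (le_of_eq ?_)
        rw [show 2 * y * (disc w φ b s * kk r (t - s)) = kk r (t - s) * (2 * (y * disc w φ b s)) by
          ring, abs_mul, abs_mul, abs_two]
      have e3 : 2 * |y * disc w φ b s| ≤ disc w φ b s ^ 2 + y ^ 2 := by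
        rw [abs_mul, ← sq_abs (disc w φ b s), ← sq_abs y]
        nlinarith [sq_nonneg (|y| - |disc w φ b s|)]
      refine e2.trans ?_
      have := mul_le_mul_of_nonneg_left e3 (abs_nonneg (kk r (t - s)))
      linarith
    exact e1.trans (by gcongr)
  have hp := Real.pi_pos
  have h3 := hkey (v / (2 * Real.pi))
  have h4 : 2 * (v / (2 * Real.pi)) * v = 2 * (v ^ 2 / (2 * Real.pi)) := by ring
  have h5 : (v / (2 * Real.pi)) ^ 2 * (2 * Real.pi) = v ^ 2 / (2 * Real.pi) := by
    field_simp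
  rw [h4, h5] at h3
  have h6 : v ^ 2 / (2 * Real.pi) ≤ I := by linarith
  rw [div_le_iff₀ (by positivity)] at h6
  linarith

theorem continuous_vv (hr0 : 0 ≤ r) (hr1 : r < 1) (w φ : ι → ℝ) : Continuous (vv r w φ) := by
  unfold vv
  exact continuous_finsetSum _ fun j _ => continuous_const.mul
    ((continuous_hk hr0 hr1).comp (by fun_prop))

theorem integral_vv_sq (hr0 : 0 ≤ r) (hr1 : r < 1) (w φ : ι → ℝ) (h0 : ∀ j, -(1/2) ≤ φ j)
    (h1 : ∀ j, φ j ≤ 1/2) (b : ℝ) :
    ∫ t in (0:ℝ)..1, vv r w φ t ^ 2 ≤ 4 * Real.pi ^ 2 *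
      ∫ s in (-(1/2) : ℝ)..(1/2), disc w φ b s ^ 2 := by
  have hp := Real.pi_pos
  obtain ⟨B, hB0, hB⟩ := disc_bound w φ b
  set μ := (volume : Measure ℝ).restrict (Set.Ioc 0 1) with hμ
  set ν := (volume : Measure ℝ).restrict (Set.Ioc (-(1/2)) (1/2)) with hν
  set f : ℝ → ℝ → ℝ := fun t s => |kk r (t - s)| * disc w φ b s ^ 2 with hf
  have hck := continuous_kk hr0 hr1
  obtain ⟨M, hM0, hM⟩ : ∃ M : ℝ, 0 ≤ M ∧ ∀ x ∈ Set.Icc (-2 : ℝ) 2, |kk r x| ≤ M := by
    obtain ⟨M, hM⟩ := (isCompact_Icc (a := (-2:ℝ)) (b := 2)).exists_bound_of_continuousOn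
      hck.continuousOn
    exact ⟨max M 0, le_max_right _ _, fun x hx => (hM x hx).trans (le_max_left _ _)⟩
  have hmeas : Measurable (Function.uncurry f) := by
    have e1 : Measurable fun p : ℝ × ℝ => |kk r (p.1 - p.2)| :=
      (hck.abs.comp (continuous_fst.sub continuous_snd)).measurable
    exact e1.mul (((measurable_disc w φ b).comp measurable_snd).pow_const 2)
  have hint : Integrable (Function.uncurry f) (μ.prod ν) := by
    refine Integrable.mono' (g := fun _ => M * B ^ 2) (integrable_const _)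
      hmeas.aestronglyMeasurable ?_
    rw [hμ, hν, Measure.prod_restrict]
    refine (ae_restrict_iff' (measurableSet_Ioc.prod measurableSet_Ioc)).mpr
      (Eventually.of_forall fun p hp => ?_)
    have e1 : |kk r (p.1 - p.2)| ≤ M := by
      refine hM _ ⟨?_, ?_⟩
      · linarith [hp.1.1, hp.2.2]
      · linarith [hp.1.2, hp.2.1]
    have e2 : |disc w φ b p.2| ≤ B := hB _ ⟨hp.2.1.le, hp.2.2⟩
    show ‖|kk r (p.1 - p.2)| * disc w φ b p.2 ^ 2‖ ≤ M * B ^ 2
    rw [norm_mul, norm_pow, Real.norm_eq_abs, abs_abs]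
    exact mul_le_mul e1 (pow_le_pow_left₀ (norm_nonneg _) e2 2) (by positivity) hM0
  have hswap := integral_integral_swap hint
  have e1 : ∫ t in (0:ℝ)..1, vv r w φ t ^ 2 ≤ 2 * Real.pi * ∫ t, ∫ s, f t s ∂ν ∂μ := by
    rw [intervalIntegral.integral_of_le zero_le_one, ← integral_const_mul]
    refine integral_mono_ae ?_ ?_ ?_
    · have := ((continuous_vv hr0 hr1 w φ).pow 2).intervalIntegrable 0 1 (μ := volume)
      rw [intervalIntegrable_iff_integrableOn_Ioc_of_le zero_le_one] at this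
      exact this
    · exact (hint.integral_prod_left).const_mul _
    · refine Eventually.of_forall fun t => ?_
      have e2 := vv_sq hr0 hr1 w φ h0 h1 b t
      rw [intervalIntegral.integral_of_le (by norm_num)] at e2
      exact e2
  have e2 : ∫ s, ∫ t, f t s ∂μ ∂ν ≤ ∫ s, 2 * Real.pi * disc w φ b s ^ 2 ∂ν := by
    refine integral_mono_ae (hint.integral_prod_right) ?_ ?_
    · have := (disc_sq_integrable w φ b).const_mul (2 * Real.pi)
      rw [intervalIntegrable_iff_integrableOn_Ioc_of_le (by norm_num)] at this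
      exact this
    · refine Eventually.of_forall fun s => ?_
      have e3 : ∫ t, f t s ∂μ = (∫ t in (0:ℝ)..1, |kk r (t - s)|) * disc w φ b s ^ 2 := by
        rw [intervalIntegral.integral_of_le zero_le_one, ← integral_mul_const]
      have e4 : ∫ t in (0:ℝ)..1, |kk r (t - s)| ≤ 2 * Real.pi := by
        rw [intervalIntegral.integral_comp_sub_right (fun x => |kk r x|) s,
          show (1:ℝ) - s = 0 - s + 1 by ring]
        exact integral_abs_kk hr0 hr1 _
      show ∫ t, f t s ∂μ ≤ 2 * Real.pi * disc w φ b s ^ 2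
      rw [e3]
      exact mul_le_mul_of_nonneg_right e4 (sq_nonneg _)
  refine e1.trans ?_
  rw [hswap]
  refine (mul_le_mul_of_nonneg_left e2 (by positivity)).trans (le_of_eq ?_)
  rw [integral_const_mul, intervalIntegral.integral_of_le (by norm_num)]
  ring

/-- the logarithm -/
def uu (r : ℝ) (w φ : ι → ℝ) (t : ℝ) : ℝ := ∑ j, w j * (gk r (t - φ j)).re

theorem continuous_uu (hr0 : 0 ≤ r) (hr1 : r < 1) (w φ : ι → ℝ) : Continuous (uu r w φ) := by
  unfold uu
  exact continuous_finsetSum _ fun j _ => continuous_const.mul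
    (Complex.continuous_re.comp ((continuous_gk hr0 hr1).comp (by fun_prop)))

theorem integral_uu_sq (hr0 : 0 ≤ r) (hr1 : r < 1) (w φ : ι → ℝ) :
    ∫ t in (0:ℝ)..1, uu r w φ t ^ 2 = ∫ t in (0:ℝ)..1, vv r w φ t ^ 2 := by
  set F : ℂ → ℂ := fun z => (∑ j, (w j : ℂ) * Complex.log (1 - z * ez (-(φ j)))) ^ 2 with hF
  have h1 := mean_value F (by
    intro z hz
    rw [mem_ball_zero_iff] at hz
    refine DifferentiableAt.differentiableWithinAt ?_
    refine DifferentiableAt.pow (DifferentiableAt.fun_sum fun j _ => ?_) 2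
    refine DifferentiableAt.const_mul (DifferentiableAt.clog (by fun_prop) ?_) _
    rw [sub_eq_add_neg]
    refine Complex.mem_slitPlane_of_norm_lt_one ?_
    rw [norm_neg, norm_mul, D_norm_ez, mul_one]
    exact hz) hr0 hr1
  have h2 : F 0 = 0 := by simp [hF]
  rw [h2] at h1
  have h3 : ∀ t, F (r * ez t) = ((uu r w φ t : ℂ) + vv r w φ t * Complex.I) ^ 2 := by
    intro t
    simp only [hF]
    congr 1
    unfold uu vv hk
    push_cast
    rw [Finset.sum_mul, ← Finset.sum_add_distrib]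
    refine Finset.sum_congr rfl fun j _ => ?_
    have e1 : (1 : ℂ) - r * ez t * ez (-(φ j)) = 1 - r * ez (t - φ j) := by
      rw [sub_eq_add_neg t, ez_add]
      ring
    rw [e1]
    have e2 := Complex.re_add_im (gk r (t - φ j))
    unfold gk at e2 ⊢
    rw [mul_assoc, ← mul_add, e2]
  simp only [h3] at h1
  have hcont : Continuous fun t => ((uu r w φ t : ℂ) + vv r w φ t * Complex.I) ^ 2 := by
    refine Continuous.pow ?_ 2
    exact (Complex.continuous_ofReal.comp (continuous_uu hr0 hr1 w φ)).add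
      ((Complex.continuous_ofReal.comp (continuous_vv hr0 hr1 w φ)).mul continuous_const)
  have h4 := ContinuousLinearMap.intervalIntegral_comp_comm Complex.reCLM
      (hcont.intervalIntegrable 0 1 (μ := volume))
  rw [h1, map_zero] at h4
  have h5 : ∀ t, Complex.reCLM (((uu r w φ t : ℂ) + vv r w φ t * Complex.I) ^ 2) =
      uu r w φ t ^ 2 - vv r w φ t ^ 2 := by
    intro t
    rw [Complex.reCLM_apply, sq]
    simp only [Complex.mul_re, Complex.add_re, Complex.add_im, Complex.ofReal_re, Complex.ofReal_im,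
      Complex.mul_im, Complex.I_re, Complex.I_im]
    ring
  simp only [h5] at h4
  rw [intervalIntegral.integral_sub] at h4
  · linarith
  · exact ((continuous_uu hr0 hr1 w φ).pow 2).intervalIntegrable _ _
  · exact ((continuous_vv hr0 hr1 w φ).pow 2).intervalIntegrable _ _

theorem integral_abs_uu (hr0 : 0 ≤ r) (hr1 : r < 1) (w φ : ι → ℝ) (h0 : ∀ j, -(1/2) ≤ φ j)
    (h1 : ∀ j, φ j ≤ 1/2) (b K : ℝ) (hK0 : 0 ≤ K)
    (hK : ∫ s in (-(1/2) : ℝ)..(1/2), disc w φ b s ^ 2 ≤ K ^ 2) :
    ∫ t in (0:ℝ)..1, |uu r w φ t| ≤ 21 * (1 + K) := by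
  have hcu := continuous_uu hr0 hr1 w φ
  have e1 : ∫ t in (0:ℝ)..1, uu r w φ t ^ 2 ≤ 40 * K ^ 2 := by
    rw [integral_uu_sq hr0 hr1]
    refine (integral_vv_sq hr0 hr1 w φ h0 h1 b).trans ?_
    have hp : Real.pi ^ 2 ≤ 10 := by
      have := Real.pi_lt_d2
      have := Real.pi_pos
      nlinarith
    have h3 : 0 ≤ ∫ s in (-(1/2) : ℝ)..(1/2), disc w φ b s ^ 2 :=
      intervalIntegral.integral_nonneg (by norm_num) fun _ _ => sq_nonneg _
    nlinarith
  have hB : 0 < 1 + K := by linarith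
  have e2 : ∀ t, |uu r w φ t| ≤ (uu r w φ t ^ 2 / (1 + K) + (1 + K)) / 2 := by
    intro t
    rw [le_div_iff₀ (by norm_num), ← sub_nonneg]
    have : uu r w φ t ^ 2 / (1 + K) + (1 + K) - |uu r w φ t| * 2 =
        (|uu r w φ t| - (1 + K)) ^ 2 / (1 + K) := by
      rw [← sq_abs]
      field_simp
      ring
    rw [this]
    positivity
  have e3 : ∫ t in (0:ℝ)..1, |uu r w φ t| ≤
      ∫ t in (0:ℝ)..1, (uu r w φ t ^ 2 / (1 + K) + (1 + K)) / 2 := by
    refine intervalIntegral.integral_mono_on zero_le_one (hcu.abs.intervalIntegrable _ _) ?_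
      fun t _ => e2 t
    exact Continuous.intervalIntegrable (by fun_prop) _ _
  refine e3.trans ?_
  have hi3 : IntervalIntegrable (fun t => uu r w φ t ^ 2 / (1 + K)) volume 0 1 :=
    ((hcu.pow 2).div_const _).intervalIntegrable _ _
  rw [intervalIntegral.integral_div, intervalIntegral.integral_add hi3 intervalIntegrable_const,
    intervalIntegral.integral_div, intervalIntegral.integral_const]
  simp only [sub_zero, smul_eq_mul, one_mul]
  rw [div_le_iff₀ (by norm_num)]
  have e4 : (∫ t in (0:ℝ)..1, uu r w φ t ^ 2) / (1 + K) ≤ 40 * (1 + K) := by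
    rw [div_le_iff₀ hB]
    nlinarith
  linarith

end

end Pool.Agent.L0h53.DZ
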