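import Mathlib
import Pool.Agent.L0h53.DZ.C

/-!
# From the discrepancy to the quotient
-/

set_option autoImplicit false
set_option linter.unusedSectionVars false

namespace Pool.Agent.L0h53.DZ

open MeasureTheory Filter Topology Polynomial
open Pool.Agent.H261R2.CM
open Pool.Agent.W242.IM (ae_eval_ne)
open Pool.Agent.Y820.LB
open Pool.Agent.L0h53.SC (ez_add ez_zero ez_one dom_lim ez_neg_mul)

noncomputable section

variable {ι : Type*} [Fintype ι]

theorem re_gk (r t : ℝ) : (gk r t).re = Real.log ‖1 - (r : ℂ) * ez t‖ := by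
  unfold gk
  rw [Complex.log_re]

theorem norm_sub_ez (t φ : ℝ) : ‖1 - ez (t - φ)‖ = ‖ez t - ez φ‖ := by
  have h : ez t - ez φ = -(ez φ * (1 - ez (t - φ))) := by
    rw [mul_sub, mul_one, ← ez_add, add_sub_cancel]
    ring
  rw [h, norm_neg, norm_mul, D_norm_ez, one_mul]

theorem ae_ne_ez (φ : ℝ) : ∀ᵐ t : ℝ, ez t ≠ ez φ := by
  have h := ae_eval_ne (X - C (ez φ)) (X_sub_C_ne_zero _)
  filter_upwards [h] with t ht
  rw [eval_sub, eval_X, eval_C, sub_ne_zero] at ht
  exact ht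

theorem dom_ratio (w φ : ι → ℝ) (h0 : ∀ j, -(1/2) ≤ φ j)
    (h1 : ∀ j, φ j ≤ 1/2) (b K : ℝ) (hK0 : 0 ≤ K)
    (hK : ∫ s in (-(1/2) : ℝ)..(1/2), disc w φ b s ^ 2 ≤ K ^ 2) :
    Dom (fun t => Real.exp (∑ j, w j * Real.log ‖ez t - ez (φ j)‖))
      (Real.log 2 + 21 * (1 + K)) := by
  set rs : ℕ → ℝ := fun j => 1 - 1 / ((j : ℝ) + 1) with hrs
  have hr0 : ∀ j, 0 ≤ rs j := fun j => by
    show 0 ≤ 1 - 1 / ((j : ℝ) + 1)
    rw [sub_nonneg, div_le_one (by positivity)]
    have : (0:ℝ) ≤ j := Nat.cast_nonneg j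
    linarith
  have hr1 : ∀ j, rs j < 1 := fun j => by
    show 1 - 1 / ((j : ℝ) + 1) < 1
    have : 0 < 1 / ((j : ℝ) + 1) := by positivity
    linarith
  have hlim : Tendsto rs atTop (𝓝 1) := by
    have := (tendsto_const_nhds (x := (1:ℝ))).sub tendsto_one_div_add_atTop_nhds_zero_nat
    rwa [sub_zero] at this
  refine dom_lim (fun j t => Real.exp (uu (rs j) w φ t)) _ _ ?_ ?_ ?_ ?_
  · intro j
    exact (Real.continuous_exp.comp (continuous_uu (hr0 j) (hr1 j) w φ)).measurable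
  · refine Real.measurable_exp.comp (Finset.measurable_sum _ fun j _ => ?_)
    refine Measurable.const_mul ?_ _
    exact Real.measurable_log.comp ((D_continuous_ez.sub continuous_const).norm.measurable)
  · refine Eventually.of_forall fun j => ?_
    have hc := continuous_uu (hr0 j) (hr1 j) w φ
    refine ⟨fun t => Real.log 2 + |uu (rs j) w φ t|,
      (continuous_const.add hc.abs).intervalIntegrable _ _, ?_, ?_⟩
    · refine Eventually.of_forall fun t => ⟨(Real.exp_pos _).le, ?_⟩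
      have e1 : 1 + Real.exp (uu (rs j) w φ t) ≤ 2 * Real.exp |uu (rs j) w φ t| := by
        have e2 : 1 ≤ Real.exp |uu (rs j) w φ t| := Real.one_le_exp (abs_nonneg _)
        have e3 : Real.exp (uu (rs j) w φ t) ≤ Real.exp |uu (rs j) w φ t| :=
          Real.exp_le_exp.mpr (le_abs_self _)
        linarith
      refine (Real.log_le_log (by positivity) e1).trans (le_of_eq ?_)
      rw [Real.log_mul (by norm_num) (Real.exp_pos _).ne', Real.log_exp]
    · rw [intervalIntegral.integral_add intervalIntegrable_const (hc.abs.intervalIntegrable _ _)]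
      have := integral_abs_uu (hr0 j) (hr1 j) w φ h0 h1 b K hK0 hK
      simp only [intervalIntegral.integral_const, sub_zero, one_smul]
      linarith
  · have hall : ∀ᵐ t : ℝ, ∀ j, ez t ≠ ez (φ j) := ae_all_iff.mpr fun j => ae_ne_ez (φ j)
    filter_upwards [hall] with t ht
    refine (Real.continuous_exp.tendsto _).comp ?_
    unfold uu
    refine tendsto_finsetSum _ fun j _ => ?_
    refine Tendsto.const_mul _ ?_
    simp only [re_gk]
    have e1 : Tendsto (fun i => ‖1 - (rs i : ℂ) * ez (t - φ j)‖) atTop (𝓝 ‖ez t - ez (φ j)‖) := by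
      have e2 : Continuous fun x : ℝ => ‖1 - (x : ℂ) * ez (t - φ j)‖ := by fun_prop
      have e3 := (e2.tendsto 1).comp hlim
      rw [Complex.ofReal_one, one_mul, norm_sub_ez] at e3
      exact e3
    exact e1.log (norm_ne_zero_iff.mpr (sub_ne_zero.mpr (ht j)))

theorem exists_fam (m : Multiset ℂ) : ∃ (n : ℕ) (α : Fin n → ℂ), Finset.univ.val.map α = m := by
  refine ⟨m.toList.length, m.toList.get, ?_⟩
  rw [Fin.univ_val_map, List.ofFn_get, Multiset.coe_toList]

/-- the angle of a complex number, in full turns -/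
def ang (z : ℂ) : ℝ := Complex.arg z / (2 * Real.pi)

theorem ang_le (z : ℂ) : ang z ≤ 1 / 2 := by
  unfold ang
  have := Complex.arg_le_pi z
  rw [div_le_iff₀ (by positivity)]
  linarith

theorem le_ang (z : ℂ) : -(1 / 2) ≤ ang z := by
  unfold ang
  have := Complex.neg_pi_lt_arg z
  rw [le_div_iff₀ (by positivity)]
  linarith

theorem eq_norm_mul_ez (z : ℂ) : z = (‖z‖ : ℂ) * ez (ang z) := by
  have h : ez (ang z) = Complex.exp (Complex.arg z * Complex.I) := by
    unfold ez ang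
    congr 1
    have : (Real.pi : ℂ) ≠ 0 := by exact_mod_cast Real.pi_ne_zero
    push_cast
    field_simp
  rw [h]
  exact (Complex.norm_mul_exp_arg_mul_I z).symm

theorem norm_sub_ge (t : ℝ) (z : ℂ) : Real.sqrt ‖z‖ * ‖ez t - ez (ang z)‖ ≤ ‖ez t - z‖ := by
  have h1 : ‖ez t - z‖ ^ 2 - ‖z‖ * ‖ez t - ez (ang z)‖ ^ 2 = (1 - ‖z‖) ^ 2 := by
    set ρ := ‖z‖ with hρ
    set u := ez t with hu
    set v := ez (ang z) with hv
    have hz : z = (ρ : ℂ) * v := eq_norm_mul_ez z
    have hu1 : Complex.normSq u = 1 := by rw [Complex.normSq_eq_norm_sq, hu, D_norm_ez]; norm_num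
    have hv1 : Complex.normSq v = 1 := by rw [Complex.normSq_eq_norm_sq, hv, D_norm_ez]; norm_num
    rw [hz, ← Complex.normSq_eq_norm_sq, ← Complex.normSq_eq_norm_sq]
    simp only [Complex.normSq_apply, Complex.sub_re, Complex.sub_im, Complex.re_ofReal_mul,
      Complex.im_ofReal_mul] at hu1 hv1 ⊢
    linear_combination (1 - ρ) * hu1 + (ρ ^ 2 - ρ) * hv1
  have h2 : (Real.sqrt ‖z‖ * ‖ez t - ez (ang z)‖) ^ 2 ≤ ‖ez t - z‖ ^ 2 := by
    rw [mul_pow, Real.sq_sqrt (norm_nonneg _)]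
    nlinarith [sq_nonneg (1 - ‖z‖)]
  exact le_of_sq_le_sq h2 (norm_nonneg _)

end

end Pool.Agent.L0h53.DZ
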