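import Mathlib
import Pool.Agent.L0h53.DZ.D
import Pool.Agent.L0h53.SC.M


/-!
# The gap theorem for polynomials with a small discrepancy
-/

set_option autoImplicit false
set_option linter.unusedSectionVars false

namespace Pool.Agent.L0h53.DZ

open MeasureTheory Filter Topology Polynomial
open Pool.Agent.H261R2.CM
open Pool.Agent.W242.IM (ae_eval_ne)
open Pool.Agent.Y820.LB
open Pool.Agent.L0h53.SC (ez_add ez_zero ez_one dom_lim ez_neg_mul)

noncomputable section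

theorem eval_fam {n : ℕ} (p : ℂ[X]) (α : Fin n → ℂ) (hα : Finset.univ.val.map α = p.roots) (z : ℂ) :
    ‖p.eval z‖ = ‖p.leadingCoeff‖ * ∏ j, ‖z - α j‖ := by
  rw [(IsAlgClosed.splits p).eval_eq_prod_roots, norm_mul, ← hα, Multiset.map_map]
  congr 1
  have h : (Finset.univ.val.map ((z - ·) ∘ α)).prod = ∏ j, (z - α j) := rfl
  rw [h, norm_prod]

/-- the logarithm of the radial projection -/
def lo {n : ℕ} (α : Fin n → ℂ) (t : ℝ) : ℝ := ∑ j, Real.log ‖ez t - ez (ang (α j))‖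

/-- half of the logarithm of the product of the outer coefficients -/
def hc (p : ℂ[X]) : ℝ := Real.log (‖p.leadingCoeff‖ * ‖p.eval 0‖) / 2

theorem log_ge {n : ℕ} (p : ℂ[X]) (α : Fin n → ℂ) (hα : Finset.univ.val.map α = p.roots)
    (hp0 : p.eval 0 ≠ 0) (t : ℝ) (ht : ∀ j, ez t ≠ ez (ang (α j))) :
    hc p + lo α t ≤ Real.log ‖p.eval (ez t)‖ := by
  have hp : p ≠ 0 := by
    rintro rfl
    simp at hp0
  have hlc : 0 < ‖p.leadingCoeff‖ := norm_pos_iff.mpr (leadingCoeff_ne_zero.mpr hp)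
  have h0 := eval_fam p α hα 0
  simp only [zero_sub, norm_neg] at h0
  have hα0 : ∀ j, 0 < ‖α j‖ := by
    intro j
    rw [norm_pos_iff]
    intro h
    have h1 : ‖p.eval 0‖ = 0 := by
      rw [h0, Finset.prod_eq_zero (Finset.mem_univ j) (by rw [h, norm_zero]), mul_zero]
    exact hp0 (norm_eq_zero.mp h1)
  have hne : ∀ j, 0 < ‖ez t - ez (ang (α j))‖ := fun j => norm_pos_iff.mpr (sub_ne_zero.mpr (ht j))
  have hge : ∀ j, Real.log ‖α j‖ / 2 + Real.log ‖ez t - ez (ang (α j))‖ ≤ Real.log ‖ez t - α j‖ := by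
    intro j
    have h1 := norm_sub_ge t (α j)
    have h2 : 0 < Real.sqrt ‖α j‖ * ‖ez t - ez (ang (α j))‖ :=
      mul_pos (Real.sqrt_pos.mpr (hα0 j)) (hne j)
    have h3 := Real.log_le_log h2 h1
    rwa [Real.log_mul (Real.sqrt_pos.mpr (hα0 j)).ne' (hne j).ne', Real.log_sqrt (hα0 j).le] at h3
  have hpos : ∀ j, 0 < ‖ez t - α j‖ := fun j =>
    lt_of_lt_of_le (mul_pos (Real.sqrt_pos.mpr (hα0 j)) (hne j)) (norm_sub_ge t (α j))
  have e1 : Real.log ‖p.eval (ez t)‖ = Real.log ‖p.leadingCoeff‖ + ∑ j, Real.log ‖ez t - α j‖ := by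
    rw [eval_fam p α hα, Real.log_mul hlc.ne' (Finset.prod_pos fun j _ => hpos j).ne',
      Real.log_prod fun j _ => (hpos j).ne']
  have e2 : hc p = Real.log ‖p.leadingCoeff‖ + ∑ j, Real.log ‖α j‖ / 2 := by
    unfold hc
    rw [h0, Real.log_mul hlc.ne' (mul_pos hlc (Finset.prod_pos fun j _ => hα0 j)).ne',
      Real.log_mul hlc.ne' (Finset.prod_pos fun j _ => hα0 j).ne',
      Real.log_prod fun j _ => (hα0 j).ne', ← Finset.sum_div]
    ring
  rw [e1, e2]
  have e3 : ∑ j, (Real.log ‖α j‖ / 2 + Real.log ‖ez t - ez (ang (α j))‖) ≤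
      ∑ j, Real.log ‖ez t - α j‖ := Finset.sum_le_sum fun j _ => hge j
  rw [Finset.sum_add_distrib] at e3
  unfold lo
  linarith

theorem integral_lo_one (φ : ℝ) : IntervalIntegrable (fun t => Real.log ‖ez t - ez φ‖) volume 0 1 ∧
    ∫ t in (0:ℝ)..1, Real.log ‖ez t - ez φ‖ = 0 := by
  have h1 := integrable_log (X - C (ez φ))
  have h2 := log_mahler (X - C (ez φ))
  simp only [eval_sub, eval_X, eval_C] at h1 h2
  refine ⟨h1, ?_⟩
  rw [← h2, mahlerMeasure_X_sub_C, D_norm_ez, max_self, Real.log_one]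

theorem integral_lo {n : ℕ} (α : Fin n → ℂ) : IntervalIntegrable (lo α) volume 0 1 ∧
    ∫ t in (0:ℝ)..1, lo α t = 0 := by
  have h1 : IntervalIntegrable (lo α) volume 0 1 := by
    have := IntervalIntegrable.sum (μ := volume) (a := 0) (b := 1) Finset.univ
      (f := fun (j : Fin n) t => Real.log ‖ez t - ez (ang (α j))‖)
      fun j _ => (integral_lo_one (ang (α j))).1
    refine this.congr ?_
    intro s _
    simp [lo]
  refine ⟨h1, ?_⟩
  unfold lo
  rw [intervalIntegral.integral_finsetSum fun j _ => (integral_lo_one (ang (α j))).1]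
  exact Finset.sum_eq_zero fun j _ => (integral_lo_one (ang (α j))).2

/-- the number of zeros with an argument less than `2 π s` -/
def cnt (P : ℤ[X]) (s : ℝ) : ℝ :=
  ((toC P).roots.filter fun z => Complex.arg z < 2 * Real.pi * s).card

theorem ang_lt (z : ℂ) (s : ℝ) : ang z < s ↔ Complex.arg z < 2 * Real.pi * s := by
  unfold ang
  rw [div_lt_iff₀ (by positivity), mul_comm s]

theorem cnt_eq (P : ℤ[X]) {n : ℕ} (α : Fin n → ℂ) (hα : Finset.univ.val.map α = (toC P).roots)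
    (s : ℝ) : cnt P s = ∑ j, (if ang (α j) < s then (1:ℝ) else 0) := by
  unfold cnt
  rw [← hα, Multiset.filter_map, Multiset.card_map]
  simp only [ang_lt]
  rw [Finset.sum_ite]
  simp only [Finset.sum_const, mul_one, mul_zero, add_zero, nsmul_eq_mul]
  rfl

theorem natDegree_fam (P : ℤ[X]) {n : ℕ} (α : Fin n → ℂ)
    (hα : Finset.univ.val.map α = (toC P).roots) : P.natDegree = n := by
  have h1 := (IsAlgClosed.splits (toC P)).natDegree_eq_card_roots
  rw [← hα, Multiset.card_map] at h1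
  have h2 : (toC P).natDegree = P.natDegree :=
    natDegree_map_eq_of_injective (RingHom.injective_int _) P
  rw [← h2, h1]
  simp

/-- the square of the discrepancy -/
def dsq (P Q : ℤ[X]) (b : ℝ) : ℝ :=
  ∫ s in (-(1/2) : ℝ)..(1/2), (cnt P s - cnt Q s - ((P.natDegree : ℝ) - Q.natDegree) * s - b) ^ 2

theorem eval_zero_toC (P : ℤ[X]) : (toC P).eval 0 = ((P.coeff 0 : ℤ) : ℂ) := by
  simp [toC, eval_map, eval₂_at_zero]

theorem hc_nonneg {P : ℤ[X]} (hP : P.coeff 0 ≠ 0) : 0 ≤ hc (toC P) := by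
  unfold hc
  have hne : P ≠ 0 := by
    rintro rfl
    simp at hP
  have h1 : 1 ≤ ‖(toC P).leadingCoeff‖ := by
    have : (toC P).leadingCoeff = ((P.leadingCoeff : ℤ) : ℂ) :=
      leadingCoeff_map_of_injective (RingHom.injective_int _) P
    rw [this, Complex.norm_intCast]
    exact_mod_cast Int.one_le_abs (leadingCoeff_ne_zero.mpr hne)
  have h2 : 1 ≤ ‖(toC P).eval 0‖ := by
    rw [eval_zero_toC, Complex.norm_intCast]
    exact_mod_cast Int.one_le_abs hP
  refine div_nonneg (Real.log_nonneg ?_) (by norm_num)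
  nlinarith

theorem dom_quot (P Q : ℤ[X]) (hP : P.coeff 0 ≠ 0) (hQ : Q.coeff 0 ≠ 0) (b K : ℝ) (hK0 : 0 ≤ K)
    (hK : dsq P Q b ≤ K ^ 2) :
    Dom (fun t => ‖ev1 Q t / ev1 P t‖) (Real.log 2 + 21 * (1 + K) + Real.log (m1 Q)) := by
  obtain ⟨n, α, hα⟩ := exists_fam (toC P).roots
  obtain ⟨m, β, hβ⟩ := exists_fam (toC Q).roots
  have hn := natDegree_fam P α hα
  have hm := natDegree_fam Q β hβ
  set w : Fin n ⊕ Fin m → ℝ := Sum.elim (fun _ => -1) (fun _ => 1) with hw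
  set φ : Fin n ⊕ Fin m → ℝ := Sum.elim (fun j => ang (α j)) (fun j => ang (β j)) with hφ
  have hdisc : ∀ s, disc w φ (-b) s ^ 2 =
      (cnt P s - cnt Q s - ((P.natDegree : ℝ) - Q.natDegree) * s - b) ^ 2 := by
    intro s
    rw [cnt_eq P α hα, cnt_eq Q β hβ, hn, hm]
    unfold disc saw
    rw [Fintype.sum_sum_type]
    simp only [hw, hφ, Sum.elim_inl, Sum.elim_inr, neg_mul, one_mul, Finset.sum_neg_distrib,
      Finset.sum_sub_distrib, Finset.sum_const, Finset.card_univ, Fintype.card_fin, nsmul_eq_mul]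
    ring
  have hd := dom_ratio w φ (by rintro (j | j) <;> exact le_ang _) (by rintro (j | j) <;> exact ang_le _)
    (-b) K hK0 (by simp only [hdisc]; exact hK)
  obtain ⟨g, g1, g2, g3⟩ := hd
  have hPne : P ≠ 0 := by
    rintro rfl
    simp at hP
  have hQne : Q ≠ 0 := by
    rintro rfl
    simp at hQ
  have hP0 : (toC P).eval 0 ≠ 0 := by
    rw [eval_zero_toC]
    exact_mod_cast hP
  have hQ0 : (toC Q).eval 0 ≠ 0 := by
    rw [eval_zero_toC]
    exact_mod_cast hQ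
  have hcP := hc_nonneg hP
  have hcQ := hc_nonneg hQ
  refine ⟨fun t => g t + (Real.log ‖(toC Q).eval (ez t)‖ - lo β t), ?_, ?_, ?_⟩
  · exact g1.add ((integrable_log _).sub (integral_lo β).1)
  · have hα' : ∀ᵐ t : ℝ, ∀ j, ez t ≠ ez (ang (α j)) := ae_all_iff.mpr fun j => ae_ne_ez _
    have hβ' : ∀ᵐ t : ℝ, ∀ j, ez t ≠ ez (ang (β j)) := ae_all_iff.mpr fun j => ae_ne_ez _
    filter_upwards [g2, hα', hβ', ae_eval_ne _ (D_toC_ne P hPne), ae_eval_ne _ (D_toC_ne Q hQne)]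
      with t t1 t2 t3 t4 t5
    refine ⟨norm_nonneg _, ?_⟩
    have hpp : 0 < ‖(toC P).eval (ez t)‖ := norm_pos_iff.mpr t4
    have hqq : 0 < ‖(toC Q).eval (ez t)‖ := norm_pos_iff.mpr t5
    have e1 := log_ge (toC P) α hα hP0 t t2
    have e2 := log_ge (toC Q) β hβ hQ0 t t3
    have e3 : ∑ j, w j * Real.log ‖ez t - ez (φ j)‖ = lo β t - lo α t := by
      rw [Fintype.sum_sum_type]
      simp only [hw, hφ, Sum.elim_inl, Sum.elim_inr, neg_mul, one_mul, Finset.sum_neg_distrib, lo]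
      ring
    have e4 : ‖ev1 Q t / ev1 P t‖ = Real.exp (Real.log ‖(toC Q).eval (ez t)‖ -
        Real.log ‖(toC P).eval (ez t)‖) := by
      rw [norm_div, Real.exp_sub, Real.exp_log hpp, Real.exp_log hqq]
      rfl
    have e5 : 0 ≤ Real.log ‖(toC Q).eval (ez t)‖ - lo β t := by linarith
    have e6 : 1 + ‖ev1 Q t / ev1 P t‖ ≤ (1 + Real.exp (lo β t - lo α t)) *
        Real.exp (Real.log ‖(toC Q).eval (ez t)‖ - lo β t) := by
      rw [e4, add_mul, one_mul, ← Real.exp_add]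
      refine add_le_add (Real.one_le_exp e5) (Real.exp_le_exp.mpr ?_)
      linarith
    refine (Real.log_le_log (by positivity) e6).trans ?_
    rw [Real.log_mul (by positivity) (Real.exp_pos _).ne', Real.log_exp]
    have e7 := t1.2
    rw [e3] at e7
    linarith
  · rw [intervalIntegral.integral_add g1 ((integrable_log _).sub (integral_lo β).1),
      intervalIntegral.integral_sub (integrable_log _) (integral_lo β).1, ← log_mahler,
      (integral_lo β).2, sub_zero]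
    show _ + Real.log (m1 Q) ≤ _
    linarith

/-- the gap theorem -/
theorem gap_disc (K c : ℝ) : ∃ μ : ℝ, 1 < μ ∧ μ ≤ 2 ∧ ∀ (P Q : ℤ[X]) (b : ℝ),
    P.coeff 0 ≠ 0 → Q.coeff 0 ≠ 0 → dsq P Q b ≤ K ^ 2 → m1 Q ≤ c →
    μ ≤ m1 P ∨ ∀ (z : ℂ) (r : ℕ), 1 < ‖z‖ → (X - C z) ^ r ∣ toC P → (X - C z) ^ r ∣ toC Q := by
  obtain ⟨μ, h1, h2, hgap⟩ := pair_gap (Real.log 2 + 21 * (1 + |K|) + Real.log c)
  refine ⟨μ, h1, h2, ?_⟩
  intro P Q b hP hQ hK hc
  by_contra hcon
  push Not at hcon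
  obtain ⟨hlt, z, r, hz1, hz2, hz3⟩ := hcon
  have hPne : P ≠ 0 := by
    rintro rfl
    simp at hP
  have hQne : Q ≠ 0 := by
    rintro rfl
    simp at hQ
  have h1Q := one_le_m1 hQne
  refine absurd (hgap P Q hPne (fun t => ev1 Q t / ev1 P t) ?_ ?_ z r hz1 hz2 hz3) (not_le.mpr hlt)
  · obtain ⟨g, g1, g2, g3⟩ := dom_quot P Q hP hQ b |K| (abs_nonneg K) (by rw [sq_abs]; exact hK)
    refine ⟨g, g1, g2, g3.trans ?_⟩
    have := Real.log_le_log (by linarith) hc
    linarith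
  · filter_upwards [ae_eval_ne _ (D_toC_ne P hPne)] with t ht
    have : ev1 P t ≠ 0 := ht
    rw [mul_div_cancel₀ _ this]

end

end Pool.Agent.L0h53.DZ
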