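import Mathlib
import Pool.Agent.L0h53.DZ.E
import Pool.Agent.R328.PH

/-!
# The explicit bound for irreducible polynomials with a small discrepancy
-/

set_option autoImplicit false
set_option linter.unusedSectionVars false

namespace Pool.Agent.L0h53.DZ

open MeasureTheory Filter Topology Polynomial
open Pool.Agent.H261R2.CM
open Pool.Agent.W242.IM (ae_eval_ne)
open Pool.Agent.Y820.LB

noncomputable section

theorem aeval_eq_toC (f : ℤ[X]) (z : ℂ) : aeval z f = (toC f).eval z := by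
  rw [toC, eval_map, aeval_def]
  rfl

theorem mean_le (f Q : ℤ[X]) (hf : f ≠ 0) (hQ : Q ≠ 0) (B : ℝ) (hB : 0 ≤ B)
    (h : Dom (fun t => ‖ev1 Q t / ev1 f t‖) B) :
    Real.circleAverage (fun z : ℂ => Real.log (max (‖aeval z f‖ ^ 1) ‖aeval z Q‖)) 0 1 ≤
      Real.log (m1 f) + B := by
  rw [D_circleAverage]
  obtain ⟨g, g1, g2, g3⟩ := h
  have hf1 := one_le_m1 hf
  have hlf : 0 ≤ Real.log (m1 f) := Real.log_nonneg hf1
  by_cases hint : IntervalIntegrable (fun t => Real.log (max (‖aeval (ez t) f‖ ^ 1) ‖aeval (ez t) Q‖))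
      volume 0 1
  · have e1 : ∫ t in (0:ℝ)..1, Real.log (max (‖aeval (ez t) f‖ ^ 1) ‖aeval (ez t) Q‖) ≤
        ∫ t in (0:ℝ)..1, (Real.log ‖(toC f).eval (ez t)‖ + g t) := by
      refine intervalIntegral.integral_mono_ae zero_le_one hint ((integrable_log _).add g1) ?_
      filter_upwards [g2, ae_eval_ne _ (D_toC_ne f hf), ae_eval_ne _ (D_toC_ne Q hQ)] with t t1 t2 t3
      have hp : 0 < ‖(toC f).eval (ez t)‖ := norm_pos_iff.mpr t2
      have hq : 0 < ‖(toC Q).eval (ez t)‖ := norm_pos_iff.mpr t3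
      rw [aeval_eq_toC, aeval_eq_toC, pow_one]
      have e2 : max ‖(toC f).eval (ez t)‖ ‖(toC Q).eval (ez t)‖ ≤
          ‖(toC f).eval (ez t)‖ * (1 + ‖ev1 Q t / ev1 f t‖) := by
        have e3 : ‖ev1 Q t / ev1 f t‖ = ‖(toC Q).eval (ez t)‖ / ‖(toC f).eval (ez t)‖ := by
          rw [norm_div]
          rfl
        rw [e3, mul_add, mul_one, mul_div_cancel₀ _ hp.ne']
        exact max_le (by linarith) (by linarith)
      refine (Real.log_le_log (lt_max_of_lt_left hp) e2).trans ?_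
      rw [Real.log_mul hp.ne' (by positivity)]
      linarith [t1.2]
    refine e1.trans ?_
    rw [intervalIntegral.integral_add (integrable_log _) g1, ← log_mahler]
    show Real.log (m1 f) + _ ≤ _
    linarith
  · rw [intervalIntegral.integral_undef hint]
    linarith

theorem coeff_zero_ne {f : ℤ[X]} (hf : Irreducible f) (hM : 1 < m1 f) : f.coeff 0 ≠ 0 := by
  intro h
  have h1 : X ∣ f := X_dvd_iff.mpr h
  have h2 : Associated X f := Irreducible.associated_of_dvd irreducible_X hf h1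
  obtain ⟨u, hu⟩ := h2
  have h3 : IsUnit (u : ℤ[X]) := u.isUnit
  obtain ⟨a, ha, ha2⟩ := Polynomial.isUnit_iff.mp h3
  have h4 : m1 f = 1 := by
    rw [← hu, ← ha2, m1_mul]
    have e1 : m1 (X : ℤ[X]) = 1 := by
      show (toC X).mahlerMeasure = 1
      rw [toC, Polynomial.map_X]
      have := mahlerMeasure_X_sub_C 0
      rw [C_0, sub_zero] at this
      rw [this]
      simp
    have e2 : m1 (C a : ℤ[X]) = 1 := by
      show (toC (C a)).mahlerMeasure = 1
      rw [toC, Polynomial.map_C, mahlerMeasure_const]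
      rcases Int.isUnit_iff.mp ha with h5 | h5 <;> simp [h5]
    rw [e1, e2, one_mul]
  linarith

/-- the explicit bound -/
theorem explicit : ∃ c : ℝ, 0 < c ∧ ∀ (f Q : ℤ[X]) (b K : ℝ), 0 ≤ K → Irreducible f → 1 < m1 f →
    Q.coeff 0 ≠ 0 → ¬ f ∣ Q → dsq f Q b ≤ K ^ 2 →
    c / ((1 + (Q.natDegree : ℝ) / f.natDegree) * (1 + K + Real.log (m1 Q))) ^ 3 ≤
      Real.log (m1 f) := by
  obtain ⟨c, hc, h⟩ := Pool.Agent.R328.pair_main
  refine ⟨min (c / 24 ^ 3) 1, lt_min (by positivity) one_pos, ?_⟩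
  intro f Q b K hK0 hf hM hQ0 hdvd hK
  have hQ : Q ≠ 0 := by
    rintro rfl
    simp at hQ0
  have hf0 := coeff_zero_ne hf hM
  have h1Q := one_le_m1 hQ
  have hlQ : 0 ≤ Real.log (m1 Q) := Real.log_nonneg h1Q
  set D := 1 + (Q.natDegree : ℝ) / f.natDegree with hD
  have hD1 : 1 ≤ D := by
    have : (0:ℝ) ≤ (Q.natDegree : ℝ) / f.natDegree := by positivity
    linarith
  set W := 1 + K + Real.log (m1 Q) with hW
  have hW1 : 1 ≤ W := by linarith
  have hDW : 1 ≤ D * W := by nlinarith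
  have hDW3 : 1 ≤ (D * W) ^ 3 := one_le_pow₀ hDW
  rcases le_or_gt 1 (Real.log (m1 f)) with h3 | h3
  · refine le_trans ?_ h3
    rw [div_le_one (by linarith)]
    exact (min_le_right _ _).trans hDW3
  · have h4 := h f Q 1 one_pos hf hdvd hM
    have hdom := dom_quot f Q hf0 hQ0 b K hK0 hK
    have hl2 : Real.log 2 ≤ 1 := by
      have := Real.log_two_lt_d9
      linarith
    have hl20 : 0 ≤ Real.log 2 := Real.log_nonneg (by norm_num)
    have h5 := mean_le f Q hf.ne_zero hQ _ (by linarith) hdom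
    have h6 : 1 + Real.circleAverage (Pool.Agent.R328.PM f Q 1) 0 1 / ((1 : ℕ) : ℝ) ≤ 24 * W := by
      rw [Nat.cast_one, div_one]
      have : Real.circleAverage (Pool.Agent.R328.PM f Q 1) 0 1 ≤
          Real.log (m1 f) + (Real.log 2 + 21 * (1 + K) + Real.log (m1 Q)) := h5
      linarith
    refine le_trans ?_ h4
    have h8 : (1 : ℝ) + (Q.natDegree : ℝ) / (((1 : ℕ) : ℝ) * f.natDegree) = D := by
      rw [Nat.cast_one, one_mul]
    rw [h8]
    have h9 : 0 < 1 + Real.circleAverage (Pool.Agent.R328.PM f Q 1) 0 1 / ((1 : ℕ) : ℝ) := by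
      have := Pool.Agent.R328.PM_nonneg hf.ne_zero hM.le Q 1
      positivity
    have h10 : (D * (1 + Real.circleAverage (Pool.Agent.R328.PM f Q 1) 0 1 / ((1 : ℕ) : ℝ))) ^ 3 ≤
        24 ^ 3 * (D * W) ^ 3 := by
      rw [← mul_pow]
      refine pow_le_pow_left₀ (by positivity) ?_ 3
      nlinarith
    calc min (c / 24 ^ 3) 1 / (D * W) ^ 3 ≤ (c / 24 ^ 3) / (D * W) ^ 3 := by
          gcongr
          exact min_le_left _ _
      _ = c / (24 ^ 3 * (D * W) ^ 3) := by rw [div_div]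
      _ ≤ _ := by
          gcongr

end

end Pool.Agent.L0h53.DZ
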